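import Pool.Agent.H18.HX.Targets

/-!
# Row MPW of hx_modules: all constructions commute with ring homomorphisms
-/

set_option autoImplicit false

open MvPolynomial
open Pool.Agent.H12.ZD (pmap v O Res DenseOrbit NoInv)
open Pool.Agent.H18.HIT Pool.Agent.H18.HX

namespace Pool.Agent.H49.HX

section

variable {N : ℕ} {R S : Type} [CommRing R] [CommRing S] (φ : R →+* S)

theorem fse_map (P : Po (N + 1) R) :
    finSuccEquiv S N (map φ P) = (finSuccEquiv R N P).map (map φ) := by
  induction P using MvPolynomial.induction_on with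
  | C a =>
    rw [map_C, finSuccEquiv_apply, finSuccEquiv_apply, coe_eval₂Hom, coe_eval₂Hom, eval₂_C,
      eval₂_C, RingHom.comp_apply, RingHom.comp_apply, Polynomial.map_C, map_C]
  | add p q hp hq => rw [map_add, map_add, map_add, Polynomial.map_add, hp, hq]
  | mul_X p i hp =>
    rw [map_mul, map_mul, map_mul, Polynomial.map_mul, hp, map_X]
    congr 1
    refine Fin.cases ?_ (fun j => ?_) i
    · rw [finSuccEquiv_X_zero, finSuccEquiv_X_zero, Polynomial.map_X]
    · rw [finSuccEquiv_X_succ, finSuccEquiv_X_succ, Polynomial.map_C, map_X]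

theorem fse_symm_map (Q : Polynomial (Po N R)) :
    (finSuccEquiv S N).symm (Q.map (map φ)) = map φ ((finSuccEquiv R N).symm Q) := by
  rw [AlgEquiv.symm_apply_eq, fse_map, AlgEquiv.apply_symm_apply]

theorem divX_map' {A B : Type} [CommRing A] [CommRing B] (ψ : A →+* B) (Q : Polynomial A) :
    Polynomial.divX (Q.map ψ) = (Polynomial.divX Q).map ψ := by
  ext n
  rw [Polynomial.coeff_divX, Polynomial.coeff_map, Polynomial.coeff_map, Polynomial.coeff_divX]

theorem divX_iter_map {A B : Type} [CommRing A] [CommRing B] (ψ : A →+* B) (n : ℕ)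
    (Q : Polynomial A) :
    (Polynomial.divX)^[n] (Q.map ψ) = ((Polynomial.divX)^[n] Q).map ψ := by
  induction n with
  | zero => rfl
  | succ n ih => rw [Function.iterate_succ_apply', Function.iterate_succ_apply', ih, divX_map']

theorem ec_map (P : Po (N + 1) R) (j : ℕ) : ec (map φ P) j = map φ (ec P j) := by
  unfold ec
  rw [fse_map, divX_iter_map, fse_symm_map]

theorem aeval_mp {M : ℕ} (F : Fin M → Po (N + 1) R) (q : Po M R) :
    aeval (fun i => map φ (F i)) (map φ q) = map φ (aeval F q) := by
  induction q using MvPolynomial.induction_on with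
  | C a => rw [map_C, aeval_C, aeval_C, algebraMap_eq, algebraMap_eq, map_C]
  | add p q hp hq => simp only [map_add, hp, hq]
  | mul_X p i hp => simp only [map_mul, hp, map_X, aeval_X]

theorem dd_map (P : Po (N + 1) R) (i : Fin N) (h : Po (N + 1) R) :
    dd (map φ P) i (map φ h) = map φ (dd P i h) := by
  unfold dd
  simp only [Derivation.sub_apply, Derivation.smul_apply, smul_eq_mul, pderiv_map, map_sub,
    map_mul]

theorem dw_map (P : Po (N + 1) R) (w : List (Fin N)) (h : Po (N + 1) R) :
    dw (map φ P) w (map φ h) = map φ (dw P w h) := by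
  induction w with
  | nil => rfl
  | cons i w ih =>
    change dd (map φ P) i (dw (map φ P) w (map φ h)) = map φ (dd P i (dw P w h))
    rw [ih, dd_map]

theorem gl_map (P : Po (N + 1) R) (F : Tup (N + 1) R) (c : Po (N + 1) R) {r : ℕ} (l : Ix N r) :
    gl (map φ P) (mp φ F) (map φ c) l = map φ (gl P F c l) := by
  unfold gl
  have h1 : map φ (ec P (sz l) * ∏ i, X i.succ ^ (l.1 i : ℕ)) =
      ec (map φ P) (sz l) * ∏ i, X i.succ ^ (l.1 i : ℕ) := by
    rw [map_mul, ec_map, map_prod]
    simp only [map_pow, map_X]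
  rw [map_mul (map φ) c, ← aeval_mp, h1]
  rfl

end

theorem pf_MPW : T_MPW := by
  intro N r R S _ _ φ P F c
  refine ⟨fun h => ?_, ec_map φ P, fun D => ?_, ?_⟩
  · unfold Mny at h ⊢
    rw [fse_map]
    exact h.map _
  · unfold wr
    rw [RingHom.map_det]
    congr 1
    ext1 a b
    rw [RingHom.mapMatrix_apply, Matrix.map_apply, Matrix.of_apply, Matrix.of_apply, gl_map,
      dw_map]
  · unfold cc
    have h1 : ∀ (n : ℕ) (q : Po (N + 1) R), (fun h => aeval (mp φ F) h)^[n] (map φ q) =
        map φ ((fun h => aeval F h)^[n] q) := by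
      intro n q
      induction n with
      | zero => rfl
      | succ n ih =>
        rw [Function.iterate_succ_apply', Function.iterate_succ_apply', ih]
        exact aeval_mp φ F _
    rw [← h1]
    congr 1
    rw [map_mul, ← aeval_mp, pderiv_map]
    rfl

end Pool.Agent.H49.HX
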